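import Pool.Agent.H110R3.Urn.Stmts

/-! TaskE1 of project H110-URN: coordinates of equilibria are zero or bounded below. -/

namespace Pool.Agent.H201R3.Urn

open Pool.Agent.H110R3.Urn

theorem pp_le {α a b N : ℝ} (ha : 0 < a) (hb : 3 / (8 * N) ≤ b) (hN : 0 < N)
    (h3 : 3 * a ≤ b) (hα : 1 ≤ α) : pp α a b ≤ a * (8 * N) / 3 ^ α := by
  have hbpos : 0 < b := by linarith
  have hb8 : 3 ≤ 8 * N * b := by
    rw [div_le_iff₀ (by positivity)] at hb
    linarith
  have hA : 0 < a ^ α := Real.rpow_pos_of_pos ha α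
  have hB : 0 < b ^ α := Real.rpow_pos_of_pos hbpos α
  have h3α : (0:ℝ) < 3 ^ α := Real.rpow_pos_of_pos (by norm_num) α
  have e1 : a ^ α * 3 ^ α = (3 * a) ^ (α - 1) * (3 * a) := by
    rw [mul_comm (a ^ α), ← Real.mul_rpow (by norm_num) ha.le]
    have h := Real.rpow_add_one (x := 3 * a) (by positivity) (α - 1)
    rw [← h]
    congr 1
    ring
  have e2 : b ^ α = b ^ (α - 1) * b := by
    have h := Real.rpow_add_one (x := b) hbpos.ne' (α - 1)
    rw [← h]
    congr 1
    ring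
  have hmono : (3 * a) ^ (α - 1) ≤ b ^ (α - 1) :=
    Real.rpow_le_rpow (by positivity) h3 (by linarith)
  have hB1 : 0 < b ^ (α - 1) := Real.rpow_pos_of_pos hbpos _
  have key : a ^ α * 3 ^ α ≤ a * (8 * N) * b ^ α := by
    rw [e1, e2]
    calc (3 * a) ^ (α - 1) * (3 * a) ≤ b ^ (α - 1) * (3 * a) :=
          mul_le_mul_of_nonneg_right hmono (by positivity)
      _ = a * b ^ (α - 1) * 3 := by ring
      _ ≤ a * b ^ (α - 1) * (8 * N * b) := mul_le_mul_of_nonneg_left hb8 (by positivity)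
      _ = a * (8 * N) * (b ^ (α - 1) * b) := by ring
  unfold pp
  rw [div_le_div_iff₀ (by positivity) h3α]
  calc a ^ α * 3 ^ α ≤ a * (8 * N) * b ^ α := key
    _ ≤ a * (8 * N) * (a ^ α + b ^ α) :=
        mul_le_mul_of_nonneg_left (by linarith) (by positivity)

theorem taskE1 : TaskE1 := by
  intro m G _ hNE
  refine ⟨8 * (m : ℝ) + 1, fun α hα x hx i => ?_⟩
  obtain ⟨⟨hpos, _, hadj⟩, heq⟩ := hx
  have hm0 : (0 : ℝ) ≤ m := Nat.cast_nonneg m
  have hα1 : 1 ≤ α := by linarith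
  have hN : (0 : ℝ) < (NE G : ℝ) := by exact_mod_cast hNE
  by_contra hcon
  push Not at hcon
  obtain ⟨hne, hlt⟩ := hcon
  have hxi : 0 < x i := lt_of_le_of_ne (hpos i) (Ne.symm hne)
  have h3α : (0:ℝ) < 3 ^ α := Real.rpow_pos_of_pos (by norm_num) α
  have hbern : 1 + α * 2 ≤ (3:ℝ) ^ α := by
    have h := one_add_mul_self_le_rpow_one_add (s := (2:ℝ)) (by norm_num) hα1
    norm_num at h
    exact h
  have hsum : fF G α x i ≤ m * (x i * (8 * (NE G : ℝ)) / 3 ^ α) := by
    unfold fF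
    have hb : ∀ j ∈ (Finset.univ : Finset (Fin m)),
        (if G.Adj i j then pp α (x i) (x j) else 0) ≤ x i * (8 * (NE G : ℝ)) / 3 ^ α := by
      intro j _
      split_ifs with h
      · have h1 := hadj i j h
        have h8 : 1 / (2 * (NE G : ℝ)) = 4 * (1 / (8 * (NE G : ℝ))) := by
          field_simp
          norm_num
        have h9 : 3 / (8 * (NE G : ℝ)) = 3 * (1 / (8 * (NE G : ℝ))) := by
          ring
        exact pp_le hxi (by rw [h9]; linarith) hN (by linarith) hα1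
      · positivity
    have h := Finset.sum_le_sum hb
    simpa using h
  rw [heq i] at hsum
  have h1 : (NE G : ℝ) * x i * 3 ^ α ≤ 8 * m * ((NE G : ℝ) * x i) := by
    have h2 : (m : ℝ) * (x i * (8 * (NE G : ℝ)) / 3 ^ α) =
        (8 * m * ((NE G : ℝ) * x i)) / 3 ^ α := by ring
    rw [h2, le_div_iff₀ h3α] at hsum
    exact hsum
  have hNx : 0 < (NE G : ℝ) * x i := by positivity
  have h4 : (3:ℝ) ^ α ≤ 8 * m := by
    by_contra h5
    push Not at h5
    have := mul_lt_mul_of_pos_left h5 hNx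
    nlinarith
  linarith

end Pool.Agent.H201R3.Urn
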